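import Pool.Agent.ZGO.StmtsB

/-!
# ZGO, row PRI: a simple shift module has a prime
-/

set_option autoImplicit false

namespace Pool.Agent.ZGO.H49

open Pool.Agent.ZGO

/-- if the `p`-torsion and the image of `p` are finite then the group is finite -/
theorem univ_fin {X : Type} [AddCommGroup X] (p : ℕ) (hf : {x : X | p • x = 0}.Finite)
    (hr : (Set.range fun x : X => p • x).Finite) : Finite X := by
  classical
  have h : (Set.univ : Set X).Finite := by
    refine Set.Finite.of_finite_fibers (fun x : X => p • x) ?_ ?_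
    · rw [Set.image_univ]; exact hr
    · rintro y ⟨x, -, rfl⟩
      refine (hf.image (fun z => x + z)).subset ?_
      rintro z ⟨-, hz⟩
      refine ⟨z - x, ?_, by simp⟩
      have hz' : p • z = p • x := hz
      show p • (z - x) = 0
      rw [smul_sub, hz', sub_self]
  exact Set.finite_univ_iff.mp h

theorem pri (hFNK : FnkStmt) : PriStmt := by
  intro P _ ψ X _ θ ρ hS
  classical
  obtain ⟨hfin, heq, htor⟩ := hFNK P ψ X θ ρ hS.shf
  have hXinf : Infinite X := hS.shf.inf
  -- an element of order `p`
  obtain ⟨x, hx⟩ : ∃ x : X, x ≠ 0 := exists_ne 0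
  obtain ⟨m, hm, hmx⟩ := htor x
  have hord : addOrderOf x ∣ m := addOrderOf_dvd_of_nsmul_eq_zero hmx
  have hpos : 0 < addOrderOf x := Nat.pos_of_dvd_of_pos hord hm
  have hne : addOrderOf x ≠ 1 := by
    intro h
    exact hx (AddMonoid.addOrderOf_eq_one_iff.mp h)
  obtain ⟨p, hp, hpd⟩ := Nat.exists_prime_and_dvd hne
  obtain ⟨k, hk⟩ := hpd
  have hkpos : 0 < k := by
    rcases Nat.eq_zero_or_pos k with h | h
    · rw [h, Nat.mul_zero] at hk; omega
    · exact h
  have hx0 : k • x ≠ 0 := by
    intro h
    have h1 : addOrderOf x ∣ k := addOrderOf_dvd_of_nsmul_eq_zero h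
    have h2 := Nat.le_of_dvd hkpos h1
    rw [hk] at h2
    have := hp.two_le
    nlinarith
  have hpx0 : p • (k • x) = 0 := by
    rw [← mul_smul, ← hk]
    exact addOrderOf_nsmul_eq_zero x
  refine ⟨p, hp, ?_⟩
  -- the `p`-torsion
  let T : AddSubgroup X := (DistribSMul.toAddMonoidHom X p).ker
  have hTm : ∀ y, y ∈ T ↔ p • y = 0 := by
    intro y
    exact AddMonoidHom.mem_ker
  have htop : (⊤ : Subgroup P).FiniteIndex := inferInstance
  have hT : T = ⊤ ∨ (T : Set X).Finite := by
    refine hS.smp ⊤ htop (fun g _ => Subgroup.mem_top _) T ?_ ?_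
    · intro y hy
      rw [hTm] at hy ⊢
      rw [← map_nsmul, hy, map_zero]
    · intro g _ y hy
      rw [hTm] at hy ⊢
      rw [← map_nsmul, hy, map_zero]
  rcases hT with hT | hT
  · left
    intro y
    rw [← hTm, hT]
    exact AddSubgroup.mem_top y
  · right
    have hT' : {x : X | p • x = 0}.Finite := by
      refine hT.subset ?_
      intro y hy
      exact (hTm y).mpr hy
    -- the image
    let I : AddSubgroup X := (DistribSMul.toAddMonoidHom X p).range
    have hIm : ∀ y, y ∈ I ↔ ∃ z, p • z = y := by
      intro y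
      exact AddMonoidHom.mem_range
    have hI : I = ⊤ ∨ (I : Set X).Finite := by
      refine hS.smp ⊤ htop (fun g _ => Subgroup.mem_top _) I ?_ ?_
      · intro y hy
        rw [hIm] at hy ⊢
        obtain ⟨z, rfl⟩ := hy
        exact ⟨θ z, (map_nsmul θ p z).symm⟩
      · intro g _ y hy
        rw [hIm] at hy ⊢
        obtain ⟨z, rfl⟩ := hy
        exact ⟨ρ g z, (map_nsmul (ρ g) p z).symm⟩
    have hsur : ∀ y : X, ∃ z : X, p • z = y := by
      rcases hI with hI | hI
      · intro y
        rw [← hIm, hI]
        exact AddSubgroup.mem_top y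
      · exfalso
        have hr : (Set.range fun x : X => p • x).Finite := by
          refine hI.subset ?_
          rintro _ ⟨z, rfl⟩
          exact (hIm _).mpr ⟨z, rfl⟩
        exact not_finite_iff_infinite.mpr hXinf (univ_fin p hT' hr)
    refine ⟨hT', hsur, ?_⟩
    -- the primary part
    let R : AddSubgroup X :=
      { carrier := {y | ∃ n : ℕ, p ^ n • y = 0}
        zero_mem' := ⟨0, smul_zero _⟩
        add_mem' := by
          rintro a b ⟨i, hi⟩ ⟨j, hj⟩
          refine ⟨i + j, ?_⟩
          rw [smul_add, pow_add, mul_smul, mul_smul, hj, smul_zero, add_zero,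
            smul_comm, hi, smul_zero]
        neg_mem' := by
          rintro a ⟨i, hi⟩
          exact ⟨i, by rw [smul_neg, hi, neg_zero]⟩ }
    have hRm : ∀ y, y ∈ R ↔ ∃ n : ℕ, p ^ n • y = 0 := fun y => Iff.rfl
    have hR : R = ⊤ ∨ (R : Set X).Finite := by
      refine hS.smp ⊤ htop (fun g _ => Subgroup.mem_top _) R ?_ ?_
      · intro y hy
        obtain ⟨n, hn⟩ := (hRm y).mp hy
        exact (hRm _).mpr ⟨n, by rw [← map_nsmul, hn, map_zero]⟩
      · intro g _ y hy
        obtain ⟨n, hn⟩ := (hRm y).mp hy
        exact (hRm _).mpr ⟨n, by rw [← map_nsmul, hn, map_zero]⟩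
    rcases hR with hR | hR
    · intro y
      rw [← hRm, hR]
      exact AddSubgroup.mem_top y
    · exfalso
      choose f hf using hsur
      -- the chain
      let c : ℕ → X := fun n => f^[n] (k • x)
      have hc0 : c 0 = k • x := rfl
      have hcs : ∀ n, p • c (n + 1) = c n := by
        intro n
        show p • f^[n + 1] (k • x) = f^[n] (k • x)
        rw [Function.iterate_succ_apply']
        exact hf _
      have hcp : ∀ n, p ^ n • c n = k • x := by
        intro n
        induction n with
        | zero => rw [pow_zero, one_smul, hc0]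
        | succ n ih => rw [pow_succ, mul_smul, hcs, ih]
      have hcp' : ∀ n, p ^ (n + 1) • c n = 0 := by
        intro n
        rw [pow_succ', mul_smul, hcp, hpx0]
      have hinj : Function.Injective c := by
        intro i j hij
        by_contra hne
        rcases Nat.lt_or_gt_of_ne hne with h | h
        · have h1 : p ^ j • c i = 0 := by
            obtain ⟨d, rfl⟩ := Nat.exists_eq_add_of_lt h
            rw [show i + d + 1 = d + (i + 1) by ring, pow_add, mul_smul, hcp', smul_zero]
          rw [hij, hcp] at h1
          exact hx0 h1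
        · have h1 : p ^ i • c j = 0 := by
            obtain ⟨d, rfl⟩ := Nat.exists_eq_add_of_lt h
            rw [show j + d + 1 = d + (j + 1) by ring, pow_add, mul_smul, hcp', smul_zero]
          rw [← hij, hcp] at h1
          exact hx0 h1
      have hinf : (Set.range c).Infinite := Set.infinite_range_of_injective hinj
      apply hinf
      refine hR.subset ?_
      rintro _ ⟨n, rfl⟩
      exact (hRm _).mpr ⟨n + 1, hcp' n⟩

end Pool.Agent.ZGO.H49
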